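import Pool.Agent.Helper71.UQ.Goals

/-!
# UQ-UPPI: the final bound for `ℓ_∞`
-/

set_option autoImplicit false

namespace Pool.Agent.Helper60.UQ.PkUPPI

open Pool.Agent.Helper39.Net Pool.Agent.Helper71.UQ

theorem thm (h1 : G_NETZ) (h2 : G_GEOI) (h3 : G_SPAN) (h4 : G_NUM) : G_UPPI := by
  obtain ⟨A₁, hA₁, hN⟩ := h1
  obtain ⟨h6, A₂, hA₂, hM⟩ := h4
  have hA : (1 : ℝ) ≤ 7 * 2 ^ 25 * A₁ * A₂ := by
    have : (1 : ℝ) ≤ A₁ * A₂ := one_le_mul_of_one_le_of_one_le hA₁ hA₂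
    nlinarith
  refine ⟨7 * 2 ^ 25 * A₁ * A₂, hA, ?_⟩
  intro k c hk hc
  obtain ⟨hM1, hM2⟩ := hM c k hc hk
  set q : ℕ := qc c with hq
  have hq6 : 6 ≤ q := le_max_left _ _
  obtain ⟨T₁, hT₁, hNet⟩ := hN k (q + 8) hk (by omega)
  have hE : ∀ M : Finset (Fin (k + 1) → ℝ), M.Nonempty →
      Embeds dInf M c (M.card * (1 + 2 * (q + 5) * (3 * 2 ^ (25 * (k + 1)) * T₁))) := by
    intro M hMne
    obtain ⟨S, hS1, hS2⟩ := h3 (Fin (k + 1) → ℝ) dInf dInf_symm dInf_tri dInf_self dInf_pos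
      q (3 * 2 ^ (25 * (k + 1)) * T₁) (by omega) (fun r hr Z => h2 k q T₁ hk hq6 hNet r hr Z) M
    refine (embeds_of_reach dInf_symm dInf_tri dInf_self dInf_pos M hMne c S ?_).mono hS1
    intro x hx y hy
    refine (hS2 x hx y hy).mono (mul_le_mul_of_nonneg_right ?_ (dInf_nonneg _ _))
    have := h6 c hc
    linarith
  -- the numerical bound
  have hnum : 1 + 2 * ((q : ℝ) + 5) * (3 * 2 ^ (25 * (k + 1)) * (T₁ : ℝ)) ≤
      (7 * 2 ^ 25 * A₁ * A₂) ^ (k + 1) * bd k (G c) := by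
    have hq0 : (0 : ℝ) ≤ q := Nat.cast_nonneg q
    have hcast : ((q + 8 : ℕ) : ℝ) = (q : ℝ) + 8 := by push_cast; ring
    rw [hcast] at hT₁
    set X : ℝ := A₂ ^ k * bd k (G c) with hX
    have hA₁k : (1 : ℝ) ≤ A₁ ^ k := one_le_pow₀ hA₁
    have hA₁0 : (0 : ℝ) < A₁ := by linarith
    have hA₂0 : (0 : ℝ) < A₂ := by linarith
    have h5 : ((q : ℝ) + 5) * (T₁ : ℝ) ≤ A₁ ^ k * X := by
      calc ((q : ℝ) + 5) * (T₁ : ℝ) ≤ ((q : ℝ) + 5) * (A₁ ^ k * gr k ((q : ℝ) + 8)) :=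
            mul_le_mul_of_nonneg_left hT₁ (by linarith)
        _ = A₁ ^ k * (((q : ℝ) + 5) * gr k ((q : ℝ) + 8)) := by ring
        _ ≤ A₁ ^ k * X := mul_le_mul_of_nonneg_left hM1 (by linarith)
    have hP : (1 : ℝ) ≤ 2 ^ (25 * (k + 1)) := one_le_pow₀ (by norm_num)
    have hX0 : 1 ≤ A₁ ^ k * X := one_le_mul_of_one_le_of_one_le hA₁k hM2
    have h7 : 1 + 2 * ((q : ℝ) + 5) * (3 * 2 ^ (25 * (k + 1)) * (T₁ : ℝ)) ≤
        7 * 2 ^ (25 * (k + 1)) * (A₁ ^ k * X) := by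
      have h8 : (2 : ℝ) ^ (25 * (k + 1)) * (((q : ℝ) + 5) * (T₁ : ℝ)) ≤
          2 ^ (25 * (k + 1)) * (A₁ ^ k * X) := mul_le_mul_of_nonneg_left h5 (by linarith)
      have h9 : (1 : ℝ) ≤ 2 ^ (25 * (k + 1)) * (A₁ ^ k * X) :=
        one_le_mul_of_one_le_of_one_le hP hX0
      linarith
    refine h7.trans ?_
    have hbd : 0 ≤ bd k (G c) := by
      by_contra hneg
      push Not at hneg
      have : X < 0 := by
        rw [hX]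
        exact mul_neg_of_pos_of_neg (pow_pos hA₂0 k) hneg
      linarith
    have e1 : 7 * 2 ^ (25 * (k + 1)) * (A₁ ^ k * X) =
        (7 * (2 ^ 25) ^ (k + 1) * A₁ ^ k * A₂ ^ k) * bd k (G c) := by
      rw [hX, pow_mul]
      ring
    rw [e1]
    refine mul_le_mul_of_nonneg_right ?_ hbd
    have e2 : (7 * 2 ^ 25 * A₁ * A₂ : ℝ) ^ (k + 1) =
        7 ^ (k + 1) * (2 ^ 25) ^ (k + 1) * A₁ ^ (k + 1) * A₂ ^ (k + 1) := by
      rw [mul_pow, mul_pow, mul_pow]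
    rw [e2]
    have h10 : (7 : ℝ) ≤ 7 ^ (k + 1) := by
      have : (1 : ℝ) ≤ 7 ^ k := one_le_pow₀ (by norm_num)
      rw [pow_succ]
      linarith
    have h11 : A₁ ^ k ≤ A₁ ^ (k + 1) := pow_le_pow_right₀ hA₁ (Nat.le_succ k)
    have h12 : A₂ ^ k ≤ A₂ ^ (k + 1) := pow_le_pow_right₀ hA₂ (Nat.le_succ k)
    have h13 : (0 : ℝ) ≤ (2 ^ 25) ^ (k + 1) := by positivity
    gcongr
  refine csSup_le ⟨_, 2, le_rfl, rfl⟩ ?_
  rintro r ⟨n, hn, rfl⟩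
  have h7 : n * (1 + 2 * (q + 5) * (3 * 2 ^ (25 * (k + 1)) * T₁)) ∈
      Enough (dInf (d := k + 1)) n c := by
    intro M hM
    have hne : M.Nonempty := Finset.card_pos.1 (by omega)
    have := hE M hne
    rwa [hM] at this
  have h8 : (EN (dInf (d := k + 1)) n c : ℝ) ≤
      n * (1 + 2 * ((q : ℝ) + 5) * (3 * 2 ^ (25 * (k + 1)) * (T₁ : ℝ))) := by
    exact_mod_cast EN_le h7
  have hn0 : (0 : ℝ) < n := by exact_mod_cast (by omega : 0 < n)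
  rw [div_le_iff₀ hn0]
  calc _ ≤ _ := h8
    _ = (1 + 2 * ((q : ℝ) + 5) * (3 * 2 ^ (25 * (k + 1)) * (T₁ : ℝ))) * n := by ring
    _ ≤ _ := mul_le_mul_of_nonneg_right hnum hn0.le

end Pool.Agent.Helper60.UQ.PkUPPI
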